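import Pool.Agent.H79.TD.Stm

/-!
# Project TD, module INQ
-/

set_option autoImplicit false

open MvPolynomial Module Pool.Agent.H77.TF Pool.Agent.H79.TD

namespace Pool.Agent.H76.TD

/-- the homogeneous component of a product with a form -/
lemma comp_mul {K : Type} [Field K] {α e : ℕ} (hle : α ≤ e) {f : MvPolynomial (Fin 3) K}
    (hf : f.IsHomogeneous α) (h : MvPolynomial (Fin 3) K) :
    homogeneousComponent e (f * h) = f * homogeneousComponent (e - α) h := by
  conv_lhs => rw [← sum_homogeneousComponent h, Finset.mul_sum, map_sum]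
  have h1 : ∀ i, homogeneousComponent e (f * homogeneousComponent i h) =
      if i = e - α then f * homogeneousComponent i h else 0 := by
    intro i
    have h2 : f * homogeneousComponent i h ∈ homogeneousSubmodule (Fin 3) K (α + i) :=
      (hf.mul (homogeneousComponent_isHomogeneous i h))
    rw [homogeneousComponent_of_mem h2]
    by_cases h3 : i = e - α
    · rw [if_pos h3, if_pos (by omega)]
    · rw [if_neg h3, if_neg (by omega)]
  simp only [h1]
  rw [Finset.sum_ite_eq' (Finset.range (h.totalDegree + 1)) (e - α)]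
  split_ifs with h4
  · rfl
  · rw [Finset.mem_range, not_lt] at h4
    rw [homogeneousComponent_eq_zero _ _ (by omega), mul_zero]

/-- if all forms in `VD A e` are multiples of `f` -/
lemma finrank_le (hDIM : S_DIM) {K : Type} [Field K] {ν : Type} {A : ν → Fin 3 → K}
    {α e : ℕ} (hle : α ≤ e) {f : MvPolynomial (Fin 3) K} (hf : f ∈ VD A α)
    (hdvd : ∀ g ∈ VD A e, f ∣ g) : finrank K (VD A e) ≤ (e - α + 2).choose 2 := by
  obtain ⟨hfin, hrank⟩ := hDIM K (e - α)
  set L : homogeneousSubmodule (Fin 3) K (e - α) →ₗ[K] MvPolynomial (Fin 3) K :=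
    (LinearMap.mulLeft K f).domRestrict (homogeneousSubmodule (Fin 3) K (e - α)) with hL
  have h1 : VD A e ≤ LinearMap.range L := by
    intro g hg
    obtain ⟨h, rfl⟩ := hdvd g hg
    refine ⟨⟨homogeneousComponent (e - α) h, homogeneousComponent_isHomogeneous _ _⟩, ?_⟩
    have h2 : homogeneousComponent e (f * h) = f * h := by
      have h3 : f * h ∈ homogeneousSubmodule (Fin 3) K e := hg.1
      rw [homogeneousComponent_of_mem h3, if_pos rfl]
    exact (comp_mul hle hf.1 h).symm.trans h2
  have h2 : finrank K (VD A e) ≤ finrank K (LinearMap.range L) := Submodule.finrank_mono h1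
  refine h2.trans ?_
  rw [← hrank]
  exact LinearMap.finrank_range_le L

theorem t_INQ (hDIM : S_DIM) (hDU3 : S_DU3) (hBRK : S_BRK) : S_INQ := by
  intro K _ _ ν _ _ A α β f hA hf0 hf hmin hα hsum
  obtain ⟨a, rfl⟩ : ∃ a, α = a + 1 := ⟨α - 1, by omega⟩
  have h0 : finrank K (VD A a) = 0 := by
    rw [hmin a (by omega)]
    exact finrank_bot K _
  obtain ⟨h1, h2⟩ := hDU3 K ν A a
  rw [h0] at h1 h2
  have c1 : (a + 2).choose 2 * 2 = (a + 2) * (a + 1) := by
    rw [Nat.choose_two_right]
    have h3 : 2 ∣ (a + 2) * (a + 2 - 1) := (Nat.even_mul_pred_self (a + 2)).two_dvd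
    rw [Nat.div_mul_cancel h3]
    congr 1
  rcases Nat.lt_or_ge β 2 with hβ | hβ
  · interval_cases β
    · simp
    · nlinarith
  · obtain ⟨b, rfl⟩ : ∃ b, β = b + 2 := ⟨β - 2, by omega⟩
    have h3 := h2 b (by omega)
    have c2 : (b + 2).choose 2 * 2 = (b + 2) * (b + 1) := by
      rw [Nat.choose_two_right]
      have h3 : 2 ∣ (b + 2) * (b + 2 - 1) := (Nat.even_mul_pred_self (b + 2)).two_dvd
      rw [Nat.div_mul_cancel h3]
      congr 1
    rcases Nat.lt_or_ge b (a + 1) with hb | hb
    · have h4 : finrank K (VD A b) = 0 := by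
        rw [hmin b hb]
        exact finrank_bot K _
      rw [h4] at h3
      obtain ⟨d, rfl⟩ : ∃ d, a = b + d := ⟨a - b, by omega⟩
      have h5 : d ≤ d * d := Nat.le_mul_self d
      nlinarith
    · have h4 := finrank_le hDIM hb hf fun g hg =>
        hBRK K ν A (a + 1) b f g hA hf0 hf hmin hg (by omega)
      obtain ⟨d, rfl⟩ : ∃ d, b = a + 1 + d := ⟨b - (a + 1), by omega⟩
      have c3 : (d + 2).choose 2 * 2 = (d + 2) * (d + 1) := by
        rw [Nat.choose_two_right]
        have h3 : 2 ∣ (d + 2) * (d + 2 - 1) := (Nat.even_mul_pred_self (d + 2)).two_dvd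
        rw [Nat.div_mul_cancel h3]
        congr 1
      rw [show a + 1 + d - (a + 1) + 2 = d + 2 by omega] at h4
      nlinarith

end Pool.Agent.H76.TD
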