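import Pool.Agent.H79.TD.Stm6
import Pool.Agent.H22.GQ.Unc

/-!
# Project SV: uncovered points on a line (UPT)
-/

set_option autoImplicit false

open MvPolynomial Module Pool.Agent.H77.TF Pool.Agent.H79.TD
open Pool.Agent.H27.TF (exists_plane)

namespace Pool.Agent.H76.TD

theorem t_UPT : S_UPT := by
  intro K _ _ _ n A c R hc hR hprop
  have hfin : Finite (Submodule K (Fin 3 → K)) :=
    Finite.of_injective (fun V : Submodule K (Fin 3 → K) => (V : Set (Fin 3 → K))) SetLike.coe_injective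
  have hx0 : ∀ x : {x // x ∈ R.filter fun x => ∑ j, c j * x j = 0}, x.1 ≠ 0 := fun x =>
    (hR x.1 (Finset.mem_filter.1 x.2).1).2
  let g : {x // x ∈ R.filter fun x => ∑ j, c j * x j = 0} → Submodule K (Fin 3 → K) := fun x =>
    (exists_plane x.1 (hx0 x)).choose
  have hg1 : ∀ x, finrank K (g x) = 2 := fun x => (exists_plane x.1 (hx0 x)).choose_spec.1
  have hg2 : ∀ x a, a ∈ g x ↔ a ⬝ᵥ x.1 = 0 := fun x a =>
    (exists_plane x.1 (hx0 x)).choose_spec.2 a
  have hinj : Function.Injective g := by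
    intro x y h
    obtain ⟨j, hj⟩ := Function.ne_iff.1 (hx0 x)
    have h1 := Pool.Agent.H22.GQ.prop_of_ann (p := x.1) (p' := y.1) j hj (fun a ha => by
      rw [← hg2 y, ← h, hg2 x]
      exact ha)
    refine Subtype.ext ?_
    exact (hprop y.1 (Finset.mem_filter.1 y.2).1 x.1 (Finset.mem_filter.1 x.2).1 _ h1.symm).symm
  have hcard : (R.filter fun x => ∑ j, c j * x j = 0).card = (g '' Set.univ).ncard := by
    rw [Set.ncard_image_of_injective _ hinj, Set.ncard_univ, Nat.card_eq_fintype_card,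
      Fintype.card_coe]
  have hcard2 : Nat.card {W : Submodule K (Fin 3 → K) // finrank K W = 2 ∧ c ∈ W ∧ ∃ i, A i ∈ W} =
      {W : Submodule K (Fin 3 → K) | finrank K W = 2 ∧ c ∈ W ∧ ∃ i, A i ∈ W}.ncard :=
    Nat.card_coe_set_eq _
  have hdisj : Disjoint (g '' Set.univ)
      {W : Submodule K (Fin 3 → K) | finrank K W = 2 ∧ c ∈ W ∧ ∃ i, A i ∈ W} := by
    rw [Set.disjoint_left]
    rintro W ⟨x, -, rfl⟩ ⟨-, -, i, hi⟩
    exact (hR x.1 (Finset.mem_filter.1 x.2).1).1 i ((hg2 x (A i)).1 hi)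
  rw [hcard, hcard2, ← Set.ncard_union_eq hdisj (Set.toFinite _) (Set.toFinite _),
    ← Pool.Agent.H22.GQ.ncard_thr c hc]
  refine Set.ncard_le_ncard ?_ (Set.toFinite _)
  rintro W (⟨x, -, rfl⟩ | ⟨h1, h2, -⟩)
  · exact ⟨hg1 x, (hg2 x c).2 (Finset.mem_filter.1 x.2).2⟩
  · exact ⟨h1, h2⟩

end Pool.Agent.H76.TD
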