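import Pool.Agent.H79.TD.Stm6

/-!
# Project SV: a line through many points (LNC)
-/

set_option autoImplicit false

open MvPolynomial Module Pool.Agent.H77.TF Pool.Agent.H79.TD

namespace Pool.Agent.H76.TD

/-- The arrangement `A` together with `c`. -/
def ext {K : Type} {n : ℕ} (A : Fin n → Fin 3 → K) (c : Fin 3 → K) : Option (Fin n) → Fin 3 → K
  | none => c
  | some i => A i

/-- The members of a pencil. -/
def memEquiv {K : Type} [Field K] {n : ℕ} {A : Fin n → Fin 3 → K} {c : Fin 3 → K}
    {W : Submodule K (Fin 3 → K)} (hc : c ∈ W) :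
    {l // ext A c l ∈ W} ≃ Option {i // A i ∈ W} where
  toFun x := match x with
    | ⟨none, _⟩ => none
    | ⟨some i, h⟩ => some ⟨i, h⟩
  invFun x := match x with
    | none => ⟨none, hc⟩
    | some ⟨i, h⟩ => ⟨some i, h⟩
  left_inv x := by
    rcases x with ⟨_ | i, h⟩ <;> rfl
  right_inv x := by
    rcases x with _ | ⟨i, h⟩ <;> rfl

theorem t_LNC (hRS2 : S_RS2) (hBI2 : S_BI2) : S_LNC := by
  intro K _ _ n A c e φ hn hA hc hcA hchar hφ hφc hhom hne
  have hS : Simple (ext A c) := by
    refine ⟨fun o => ?_, fun o o' hoo t => ?_⟩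
    · rcases o with _ | i
      · exact hc
      · exact hA.1 i
    · rcases o with _ | i <;> rcases o' with _ | i'
      · exact absurd rfl hoo
      · exact hcA i' t
      · intro h
        have h' : A i = t • c := h
        have ht : t ≠ 0 := by
          rintro rfl
          rw [zero_smul] at h'
          exact hA.1 i h'
        refine hcA i t⁻¹ ?_
        rw [h', smul_smul, inv_mul_cancel₀ ht, one_smul]
      · exact hA.2 i i' (fun h => hoo (by rw [h])) t
  have hL : φ ∈ LD (ext A c) := by
    intro o
    rcases o with _ | i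
    · exact hφc
    · exact hφ i
  obtain ⟨κ, _, b, μ, v, W, hb, hv, hv2, hμ, hdiv, hsum, hW, hinj, hmem⟩ :=
    hRS2 K (Option (Fin n)) (ext A c) e none φ hS hL hhom hne
  have hsum' : ∑ k, μ k = n := by
    rw [Fintype.card_option, Fintype.card_fin] at hsum
    omega
  have hcW : ∀ k, c ∈ W k := hmem
  have hcard : ∀ k, Nat.card {i // A i ∈ W k} = μ k := fun k => by
    have h1 := (hW k).2
    rw [Nat.card_congr (memEquiv (hcW k)), Finite.card_option] at h1
    omega
  rcases hBI2 K κ b μ e v hb hchar hv hv2 hμ hdiv (by omega) with ⟨k₀, hk⟩ | hk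
  · left
    refine ⟨W k₀, (hW k₀).1, ?_⟩
    rw [hcard k₀]
    omega
  · right
    have : Finite (Submodule K (Fin 3 → K)) :=
      Finite.of_injective (fun V : Submodule K (Fin 3 → K) => (V : Set (Fin 3 → K))) SetLike.coe_injective
    have hle : Fintype.card κ ≤
        Nat.card {W : Submodule K (Fin 3 → K) // finrank K W = 2 ∧ c ∈ W ∧ ∃ i, A i ∈ W} := by
      rw [← Nat.card_eq_fintype_card]
      refine Nat.card_le_card_of_injective (fun k : κ => ⟨W k, (hW k).1, hcW k, ?_⟩) ?_
      · have h1 : 0 < Nat.card {i // A i ∈ W k} := by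
          rw [hcard k]
          exact hμ k
        obtain ⟨⟨i, hi⟩⟩ := (Nat.card_pos_iff.1 h1).1
        exact ⟨i, hi⟩
      · intro k k' h
        exact hinj (congrArg Subtype.val h)
    omega

end Pool.Agent.H76.TD
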